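import Pool.Agent.Helper82.IW.Goals

/-! MP_f7b570_an, packet KER of project IW: the one-dimensional kernel. -/

set_option autoImplicit false

open Complex MeasureTheory Set Filter Topology
open scoped ContDiff ComplexConjugate

namespace Pool.Agent.Helper79.IW

open Pool.Agent.Helper82.IW

theorem k1_nonneg (n : ℕ) (t : ℝ) : 0 ≤ k1 n t := by
  unfold k1
  refine mul_nonneg (by positivity) ?_
  rw [pow_mul]
  positivity

theorem k1_per (n : ℕ) (t : ℝ) : k1 n (t + 1) = k1 n t := by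
  unfold k1
  rw [mul_add, mul_one, Real.cos_add_pi, Even.neg_pow (even_two_mul n)]

theorem k1_even (n : ℕ) (t : ℝ) : k1 n (-t) = k1 n t := by
  unfold k1
  rw [mul_neg, Real.cos_neg]

theorem k1_cont (n : ℕ) : Continuous (k1 n) := by
  unfold k1
  fun_prop

/-- The Fourier coefficients. -/
noncomputable def Kc (n : ℕ) (j : ℤ) : ℝ :=
  ((2 * n).choose ((n : ℤ) + j).toNat : ℝ) / (Nat.centralBinom n : ℝ)

theorem cB_pos (n : ℕ) : (0 : ℝ) < (Nat.centralBinom n : ℝ) := by
  exact_mod_cast Nat.centralBinom_pos n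

theorem Kc_mem (n : ℕ) (j : ℤ) : 0 ≤ Kc n j ∧ Kc n j ≤ 1 := by
  unfold Kc
  refine ⟨by positivity, ?_⟩
  rw [div_le_one (cB_pos n)]
  exact_mod_cast Nat.choose_le_centralBinom _ n

theorem Kc_zero (n : ℕ) : Kc n 0 = 1 := by
  unfold Kc
  rw [add_zero, Int.toNat_natCast, ← Nat.centralBinom_eq_two_mul_choose]
  exact div_self (cB_pos n).ne'

theorem k1_fourier (n : ℕ) (t : ℝ) : (k1 n t : ℂ) =
    ∑ j ∈ Finset.Icc (-(n : ℤ)) n, (Kc n j : ℂ) *
      Complex.exp (((2 * Real.pi * (j * t) : ℝ) : ℂ) * I) := by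
  have hcB : ((Nat.centralBinom n : ℕ) : ℂ) ≠ 0 := by
    exact_mod_cast (Nat.centralBinom_pos n).ne'
  have h1 : (k1 n t : ℂ) = (Complex.exp ((Real.pi * t : ℝ) * I) +
      Complex.exp (-((Real.pi * t : ℝ) * I))) ^ (2 * n) / (Nat.centralBinom n : ℂ) := by
    unfold k1
    push_cast
    have e : Complex.exp (↑Real.pi * ↑t * I) + Complex.exp (-(↑Real.pi * ↑t * I)) =
        2 * Complex.cos (↑Real.pi * ↑t) := by
      rw [Complex.two_cos, neg_mul]
    rw [e, mul_pow, pow_mul 2 2 n]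
    norm_num
    ring
  rw [h1, add_pow, Finset.sum_div]
  refine Finset.sum_nbij' (fun k => (k : ℤ) - n) (fun j => ((n : ℤ) + j).toNat) ?_ ?_ ?_ ?_ ?_
  · intro k hk
    rw [Finset.mem_range] at hk
    rw [Finset.mem_Icc]
    omega
  · intro j hj
    rw [Finset.mem_Icc] at hj
    rw [Finset.mem_range]
    omega
  · intro k hk
    show ((n : ℤ) + ((k : ℤ) - n)).toNat = k
    rw [show (n : ℤ) + ((k : ℤ) - n) = (k : ℤ) by ring, Int.toNat_natCast]
  · intro j hj
    rw [Finset.mem_Icc] at hj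
    show ((((n : ℤ) + j).toNat : ℕ) : ℤ) - n = j
    rw [Int.toNat_of_nonneg (by omega)]
    ring
  · intro k hk
    rw [Finset.mem_range] at hk
    have hK : Kc n ((k : ℤ) - n) = ((2 * n).choose k : ℝ) / (Nat.centralBinom n : ℝ) := by
      unfold Kc
      rw [show (n : ℤ) + ((k : ℤ) - n) = (k : ℤ) by ring, Int.toNat_natCast]
    rw [hK]
    have hexp : Complex.exp ((Real.pi * t : ℝ) * I) ^ k *
        Complex.exp (-((Real.pi * t : ℝ) * I)) ^ (2 * n - k) =
        Complex.exp (((2 * Real.pi * ((((k : ℤ) - n : ℤ) : ℝ) * t) : ℝ) : ℂ) * I) := by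
      rw [← Complex.exp_nat_mul, ← Complex.exp_nat_mul, ← Complex.exp_add]
      congr 1
      have hc : ((2 * n - k : ℕ) : ℂ) = 2 * (n : ℂ) - k := by
        rw [Nat.cast_sub (by omega)]
        push_cast
        ring
      rw [hc]
      push_cast
      ring
    rw [hexp]
    push_cast
    ring

theorem int_exp (j : ℤ) : ∫ t in (0 : ℝ)..1, Complex.exp (((2 * Real.pi * (j * t) : ℝ) : ℂ) * I) =
    if j = 0 then 1 else 0 := by
  split_ifs with hj
  · subst hj
    simp
  · have hc : (2 * (Real.pi : ℂ) * j * I) ≠ 0 := by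
      have h1 : (Real.pi : ℂ) ≠ 0 := by exact_mod_cast Real.pi_ne_zero
      have h2 : (j : ℂ) ≠ 0 := by exact_mod_cast hj
      simp [h1, h2, Complex.I_ne_zero]
    have h1 : ∀ t : ℝ, Complex.exp (((2 * Real.pi * (j * t) : ℝ) : ℂ) * I) =
        Complex.exp ((2 * (Real.pi : ℂ) * j * I) * t) := by
      intro t
      congr 1
      push_cast
      ring
    simp_rw [h1]
    rw [integral_exp_mul_complex hc]
    have h2 : Complex.exp (2 * (Real.pi : ℂ) * j * I * ((1 : ℝ) : ℂ)) = 1 := by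
      rw [show 2 * (Real.pi : ℂ) * j * I * ((1 : ℝ) : ℂ) = j * (2 * Real.pi * I) by push_cast; ring]
      exact Complex.exp_int_mul_two_pi_mul_I j
    rw [h2]
    simp

theorem k1_mass (n : ℕ) : ∫ t in (0 : ℝ)..1, k1 n t = 1 := by
  have h : ((∫ t in (0 : ℝ)..1, k1 n t : ℝ) : ℂ) = 1 := by
    rw [← intervalIntegral.integral_ofReal]
    simp_rw [k1_fourier]
    rw [intervalIntegral.integral_finsetSum]
    · simp_rw [intervalIntegral.integral_const_mul, int_exp]
      rw [Finset.sum_eq_single (0 : ℤ)]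
      · simp [Kc_zero]
      · intro b _ hb
        simp [hb]
      · intro h0
        exfalso
        apply h0
        rw [Finset.mem_Icc]
        omega
    · intro j _
      apply Continuous.intervalIntegrable
      fun_prop
  exact_mod_cast h

theorem k1_mass' (n : ℕ) : ∫ t in (-(1 / 2) : ℝ)..(1 / 2), k1 n t = 1 := by
  have hp : Function.Periodic (k1 n) 1 := fun t => k1_per n t
  have h := hp.intervalIntegral_add_eq (-(1 / 2)) 0
  rw [show (-(1 / 2) : ℝ) + 1 = 1 / 2 by norm_num, zero_add] at h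
  rw [h, k1_mass]

theorem k1_rec (n : ℕ) (t : ℝ) : Real.cos (Real.pi * t) ^ 2 * k1 n t =
    (2 * n + 1) / (2 * n + 2) * k1 (n + 1) t := by
  unfold k1
  have h1 : ((n : ℝ) + 1) * (Nat.centralBinom (n + 1) : ℝ) =
      2 * (2 * n + 1) * (Nat.centralBinom n : ℝ) := by
    exact_mod_cast Nat.succ_mul_centralBinom_succ n
  have h2 := cB_pos n
  have h3 := cB_pos (n + 1)
  have h4 : (Nat.centralBinom (n + 1) : ℝ) = 2 * (2 * n + 1) * (Nat.centralBinom n : ℝ) / (n + 1) := by
    rw [eq_div_iff (by positivity), mul_comm]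
    exact h1
  rw [h4, show 2 * (n + 1) = 2 * n + 2 by ring, pow_add (Real.cos (Real.pi * t)) (2 * n) 2,
    pow_succ (4 : ℝ) n]
  field_simp
  ring

theorem second_moment (n : ℕ) : ∫ t in (-(1 / 2) : ℝ)..(1 / 2), t ^ 2 * k1 n t ≤
    1 / (8 * (n + 1)) := by
  have h1 : ∀ t ∈ Icc (-(1 / 2) : ℝ) (1 / 2), t ^ 2 * k1 n t ≤
      1 / 4 * (k1 n t - (2 * n + 1) / (2 * n + 2) * k1 (n + 1) t) := by
    intro t ht
    rw [← k1_rec]
    have h2 : 4 * t ^ 2 ≤ Real.sin (Real.pi * t) ^ 2 := by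
      have h3 : 2 * |t| ≤ Real.sin (Real.pi * |t|) := by
        have h4 : |t| ≤ 1 / 2 := abs_le.2 ⟨by linarith [ht.1], ht.2⟩
        have h5 := Real.mul_le_sin (x := Real.pi * |t|) (by positivity)
          (by nlinarith [Real.pi_pos])
        have h6 : 2 / Real.pi * (Real.pi * |t|) = 2 * |t| := by
          field_simp
        linarith
      have h4 : Real.sin (Real.pi * |t|) ^ 2 = Real.sin (Real.pi * t) ^ 2 := by
        rcases abs_cases t with ⟨h, _⟩ | ⟨h, _⟩
        · rw [h]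
        · rw [h, mul_neg, Real.sin_neg]
          ring
      rw [← h4]
      have h5 : (2 * |t|) ^ 2 ≤ Real.sin (Real.pi * |t|) ^ 2 :=
        pow_le_pow_left₀ (by positivity) h3 2
      have h6 : (2 * |t|) ^ 2 = 4 * t ^ 2 := by
        rw [mul_pow, sq_abs]
        norm_num
      linarith
    have h3 := Real.sin_sq_add_cos_sq (Real.pi * t)
    have h4 := k1_nonneg n t
    nlinarith
  have h2 : ∫ t in (-(1 / 2) : ℝ)..(1 / 2), t ^ 2 * k1 n t ≤
      ∫ t in (-(1 / 2) : ℝ)..(1 / 2),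
        1 / 4 * (k1 n t - (2 * n + 1) / (2 * n + 2) * k1 (n + 1) t) := by
    refine intervalIntegral.integral_mono_on (by norm_num) ?_ ?_ h1
    · exact ((continuous_pow 2).mul (k1_cont n)).intervalIntegrable _ _
    · exact (continuous_const.mul ((k1_cont n).sub
        (continuous_const.mul (k1_cont (n + 1))))).intervalIntegrable _ _
  refine h2.trans (le_of_eq ?_)
  have i1 : IntervalIntegrable (fun t => k1 n t) volume (-(1 / 2) : ℝ) (1 / 2) :=
    (k1_cont n).intervalIntegrable _ _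
  have i2 : IntervalIntegrable (fun t => (2 * (n : ℝ) + 1) / (2 * n + 2) * k1 (n + 1) t) volume
      (-(1 / 2) : ℝ) (1 / 2) :=
    (continuous_const.mul (k1_cont (n + 1))).intervalIntegrable _ _
  rw [intervalIntegral.integral_const_mul, intervalIntegral.integral_sub i1 i2,
    intervalIntegral.integral_const_mul, k1_mass', k1_mass']
  field_simp
  ring

theorem first_moment (n : ℕ) : ∫ t in (-(1 / 2) : ℝ)..(1 / 2), |t| * k1 n t ≤
    1 / Real.sqrt (n + 1) := by
  have hs : 0 < Real.sqrt ((n : ℝ) + 1) := Real.sqrt_pos.2 (by positivity)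
  set a : ℝ := 1 / Real.sqrt (n + 1) with ha
  have ha0 : 0 < a := by positivity
  have h1 : ∀ t ∈ Icc (-(1 / 2) : ℝ) (1 / 2), |t| * k1 n t ≤
      a / 2 * k1 n t + 1 / (2 * a) * (t ^ 2 * k1 n t) := by
    intro t _
    have h2 : |t| ≤ a / 2 + 1 / (2 * a) * t ^ 2 := by
      have h3 : 0 ≤ (a - |t|) ^ 2 := sq_nonneg _
      have h4 : |t| ^ 2 = t ^ 2 := sq_abs t
      have h5 : a / 2 + 1 / (2 * a) * t ^ 2 = (a ^ 2 + t ^ 2) / (2 * a) := by
        field_simp
      rw [h5, le_div_iff₀ (by positivity)]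
      nlinarith
    have h3 := mul_le_mul_of_nonneg_right h2 (k1_nonneg n t)
    calc |t| * k1 n t ≤ (a / 2 + 1 / (2 * a) * t ^ 2) * k1 n t := h3
      _ = _ := by ring
  have h2 : ∫ t in (-(1 / 2) : ℝ)..(1 / 2), |t| * k1 n t ≤
      ∫ t in (-(1 / 2) : ℝ)..(1 / 2), (a / 2 * k1 n t + 1 / (2 * a) * (t ^ 2 * k1 n t)) := by
    refine intervalIntegral.integral_mono_on (by norm_num) ?_ ?_ h1
    · exact (continuous_abs.mul (k1_cont n)).intervalIntegrable _ _
    · exact ((continuous_const.mul (k1_cont n)).add (continuous_const.mul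
        ((continuous_pow 2).mul (k1_cont n)))).intervalIntegrable _ _
  refine h2.trans ?_
  have i1 : IntervalIntegrable (fun t => a / 2 * k1 n t) volume (-(1 / 2) : ℝ) (1 / 2) :=
    (continuous_const.mul (k1_cont n)).intervalIntegrable _ _
  have i2 : IntervalIntegrable (fun t => 1 / (2 * a) * (t ^ 2 * k1 n t)) volume
      (-(1 / 2) : ℝ) (1 / 2) :=
    (continuous_const.mul ((continuous_pow 2).mul (k1_cont n))).intervalIntegrable _ _
  rw [intervalIntegral.integral_add i1 i2,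
    intervalIntegral.integral_const_mul, intervalIntegral.integral_const_mul, k1_mass']
  have h3 := second_moment n
  have h4 : 1 / (8 * ((n : ℝ) + 1)) = a ^ 2 / 8 := by
    rw [ha, div_pow, Real.sq_sqrt (by positivity)]
    field_simp
  rw [h4] at h3
  have h5 : 1 / (2 * a) * ∫ t in (-(1 / 2) : ℝ)..(1 / 2), t ^ 2 * k1 n t ≤
      1 / (2 * a) * (a ^ 2 / 8) := mul_le_mul_of_nonneg_left h3 (by positivity)
  have h6 : 1 / (2 * a) * (a ^ 2 / 8) = a / 16 := by
    field_simp
    norm_num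
  linarith

theorem first_moment_nonneg (n : ℕ) : 0 ≤ ∫ t in (-(1 / 2) : ℝ)..(1 / 2), |t| * k1 n t :=
  intervalIntegral.integral_nonneg (by norm_num) fun t _ =>
    mul_nonneg (abs_nonneg t) (k1_nonneg n t)

theorem sqrt_lim : Tendsto (fun n : ℕ => 1 / Real.sqrt ((n : ℝ) + 1)) atTop (𝓝 0) := by
  have h1 : Tendsto (fun n : ℕ => Real.sqrt ((n : ℝ) + 1)) atTop atTop :=
    Real.tendsto_sqrt_atTop.comp (tendsto_atTop_add_const_right _ _ tendsto_natCast_atTop_atTop)
  have h2 := h1.inv_tendsto_atTop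
  refine h2.congr fun n => ?_
  simp

/-- PACKET KER -/
theorem KER : Pool.Agent.Helper82.IW.S_KER := by
  refine ⟨k1_nonneg, k1_per, k1_even, k1_mass, ?_, fun n => ⟨Kc n, Kc_mem n, k1_fourier n⟩⟩
  exact squeeze_zero first_moment_nonneg first_moment sqrt_lim

end Pool.Agent.Helper79.IW
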